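import Pool.Agent.helper65.GD.SpecE

/-!
# Row gdm:CAR (MP_ea335c_an)

Coefficients of functions of positive real part.
-/

set_option autoImplicit false

namespace Pool.Agent.GD

open Finset Metric Filter Topology

theorem CAR (hCO1 : CO1_stmt) (hAPX : APX_stmt) : CAR_stmt := by
  intro Q hd hre
  set c : ℕ → ℂ := N2b689f5b.coeff Q with hc
  have hS : Ser c Q := hCO1 Q hd
  have h0 : (0 : ℂ) ∈ ball (0 : ℂ) 1 := by simp
  have hc0 : c 0 = Q 0 := by
    have h1 := hS 0 h0
    have h2 : HasSum (fun n => c n * (0 : ℂ) ^ n) (c 0) := by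
      have h3 := hasSum_ite_eq (0 : ℕ) (c 0)
      have h4 : (fun n : ℕ => if n = 0 then c 0 else 0) = fun n : ℕ => c n * (0 : ℂ) ^ n := by
        funext n
        by_cases hn : n = 0
        · subst hn; simp
        · simp [hn]
      rw [h4] at h3
      exact h3
    exact h2.unique h1
  set s : ℝ := (Q 0).re with hs
  have hs0 : 0 < s := hre 0 h0
  have hsC : (s : ℂ) ≠ 0 := by exact_mod_cast hs0.ne'
  have hQ0 : Q 0 ≠ 0 := by
    intro h
    rw [hs, h] at hs0
    simp at hs0
  have hn0 : Complex.normSq (Q 0) ≠ 0 := by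
    rw [Ne, Complex.normSq_eq_zero]
    exact hQ0
  set μ : ℕ → ℂ := fun m => if m = 0 then 1 else c m / (2 * s) with hμ
  have hA : Approx μ := by
    refine hAPX (fun z => (Q z - (Q 0).im * Complex.I) / s) μ (by simp [hμ]) ?_ ?_
    · intro z hz
      have h1 := (hS z hz).div_const (s : ℂ)
      have h2 := hasSum_ite_eq (0 : ℕ) ((((Q 0).im : ℂ) * Complex.I) / s)
      have h3 := h1.sub h2
      rw [← sub_div] at h3
      have h4 : (fun n => c n * z ^ n / (s : ℂ) - if n = 0 then (((Q 0).im : ℂ) * Complex.I) / s else 0)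
          = fun n => dbl μ n * z ^ n := by
        funext n
        by_cases hn : n = 0
        · subst hn
          simp only [dbl, if_true, pow_zero, mul_one]
          rw [hc0, ← sub_div, div_eq_one_iff_eq hsC]
          apply Complex.ext <;> simp [hs]
        · simp only [dbl, hμ, if_neg hn, sub_zero]
          field_simp
      rw [h4] at h3
      exact h3
    · intro z hz
      have h1 : ((Q z - ((Q 0).im : ℂ) * Complex.I) / (s : ℂ)).re = (Q z).re / s := by
        rw [Complex.div_ofReal_re]
        simp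
      change 0 ≤ ((Q z - ((Q 0).im : ℂ) * Complex.I) / (s : ℂ)).re
      rw [h1]
      exact div_nonneg (hre z hz).le hs0.le
  refine ⟨fun n => c n / Q 0, ⟨?_, (s : ℂ) / Q 0, μ, hA, ?_, ?_⟩, hQ0, ?_⟩
  · change c 0 / Q 0 = 1
    rw [hc0, div_self hQ0]
  · have h1 : ‖(s : ℂ) / Q 0‖ ^ 2 = s * s / Complex.normSq (Q 0) := by
      rw [← Complex.normSq_eq_norm_sq, Complex.normSq_div, Complex.normSq_ofReal]
    have h2 : ((s : ℂ) / Q 0).re = s * s / Complex.normSq (Q 0) := by
      rw [Complex.div_re]
      simp [← hs]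
    rw [h1, h2]
  · intro m hm
    have hm0 : m ≠ 0 := by omega
    simp only [hμ, if_neg hm0]
    field_simp
  · intro n
    field_simp

end Pool.Agent.GD
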